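import Mathlib

set_option autoImplicit false

/-!
# MP_73c65d_al, Q2: only finitely many alternating groups may occur

For distinct primes `p, q, r` and a commutator word `u` in `x, y, z`, call `n ≥ 3` admissible if the
alternating group `A_n` is generated by elements `ξ, η, ζ` with
`ξ^p = η^q = ζ^r = ξ η ζ u(ξ, η, ζ) = 1`.

We show: if `{p, q, r} = {2, 3, 5}` and `u = z⁻¹ w⁻¹ z w` with `w` any word in `x, y`, then `n = 5` is
the only admissible integer.  (The group `⟨x, y, z | x^p, y^q, z^r, x y z u⟩` has at most `60` elements,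
being the triangle group of type `(2, 3, 5)`.)  So Q2 has a negative answer, for infinitely many
commutator words `u`.
-/

namespace Pool.Agent.Results.MP_73c65d_al.SphericalTriples

open scoped commutatorElement

/-- The free group on `x, y, z`. -/
abbrev F : Type := FreeGroup (Fin 3)

/-- The generator `x`. -/
def x : F := FreeGroup.of 0
/-- The generator `y`. -/
def y : F := FreeGroup.of 1
/-- The generator `z`. -/
def z : F := FreeGroup.of 2

/-- `n ≥ 3` is admissible for `p, q, r, u`: there are generators `ξ, η, ζ` of the alternating group of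
degree `n` with `ξ^p = η^q = ζ^r = ξ η ζ u(ξ, η, ζ) = 1`. -/
def Admissible (p q r : ℕ) (u : F) (n : ℕ) : Prop :=
  3 ≤ n ∧ ∃ ξ η ζ : alternatingGroup (Fin n), Subgroup.closure {ξ, η, ζ} = ⊤ ∧
    ξ ^ p = 1 ∧ η ^ q = 1 ∧ ζ ^ r = 1 ∧ ξ * η * ζ * FreeGroup.lift ![ξ, η, ζ] u = 1

section core

variable {K : Type*} [Group K]

/-- the elements of the triangle group -/
def S (a c : K) : Set K :=
  (Set.range fun k : Fin 5 => c ^ (k : ℕ)) ∪
  (Set.range fun k : Fin 5 × Fin 5 => c ^ (k.1 : ℕ) * a * c ^ (k.2 : ℕ)) ∪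
  (Set.range fun k : Fin 5 × Fin 5 => c ^ (k.1 : ℕ) * (a * c ^ 2 * a) * c ^ (k.2 : ℕ)) ∪
  (Set.range fun k : Fin 5 => c ^ (k : ℕ) * (a * c ^ 2 * a * c ^ 3 * a))

theorem S_finite (a c : K) : (S a c).Finite := by
  unfold S
  exact (((Set.finite_range _).union (Set.finite_range _)).union (Set.finite_range _)).union
    (Set.finite_range _)

theorem S_ncard (a c : K) : (S a c).ncard ≤ 60 := by
  have h : ∀ {ι : Type} [Fintype ι] (f : ι → K), (Set.range f).ncard ≤ Fintype.card ι := by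
    intro ι _ f
    rw [← Set.image_univ, ← Nat.card_eq_fintype_card, ← Set.ncard_univ]
    exact Set.ncard_image_le Set.finite_univ
  unfold S
  refine (Set.ncard_union_le _ _).trans ?_
  refine (Nat.add_le_add (Set.ncard_union_le _ _) le_rfl).trans ?_
  refine (Nat.add_le_add (Nat.add_le_add (Set.ncard_union_le _ _) le_rfl) le_rfl).trans ?_
  have h1 := h (fun k : Fin 5 => c ^ (k : ℕ))
  have h2 := h (fun k : Fin 5 × Fin 5 => c ^ (k.1 : ℕ) * a * c ^ (k.2 : ℕ))
  have h3 := h (fun k : Fin 5 × Fin 5 => c ^ (k.1 : ℕ) * (a * c ^ 2 * a) * c ^ (k.2 : ℕ))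
  have h4 := h (fun k : Fin 5 => c ^ (k : ℕ) * (a * c ^ 2 * a * c ^ 3 * a))
  simp only [Fintype.card_prod, Fintype.card_fin] at h1 h2 h3 h4
  omega

theorem pow_mod {c : K} (hc : c ^ 5 = 1) (k : ℕ) : c ^ k = c ^ (k % 5) := by
  conv_lhs => rw [← Nat.div_add_mod k 5, pow_add, pow_mul, hc, one_pow, one_mul]

theorem mem1 {a c : K} (hc : c ^ 5 = 1) (k : ℕ) : c ^ k ∈ S a c := by
  refine Or.inl (Or.inl (Or.inl ⟨⟨k % 5, Nat.mod_lt _ (by norm_num)⟩, ?_⟩))
  exact (pow_mod hc k).symm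

theorem mem2 {a c : K} (hc : c ^ 5 = 1) (k i : ℕ) : c ^ k * a * c ^ i ∈ S a c := by
  refine Or.inl (Or.inl (Or.inr ⟨(⟨k % 5, Nat.mod_lt _ (by norm_num)⟩,
    ⟨i % 5, Nat.mod_lt _ (by norm_num)⟩), ?_⟩))
  show c ^ (k % 5) * a * c ^ (i % 5) = _
  rw [← pow_mod hc, ← pow_mod hc]

theorem mem3 {a c : K} (hc : c ^ 5 = 1) (k i : ℕ) :
    c ^ k * (a * c ^ 2 * a) * c ^ i ∈ S a c := by
  refine Or.inl (Or.inr ⟨(⟨k % 5, Nat.mod_lt _ (by norm_num)⟩,
    ⟨i % 5, Nat.mod_lt _ (by norm_num)⟩), ?_⟩)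
  show c ^ (k % 5) * (a * c ^ 2 * a) * c ^ (i % 5) = _
  rw [← pow_mod hc, ← pow_mod hc]

theorem mem4 {a c : K} (hc : c ^ 5 = 1) (k : ℕ) :
    c ^ k * (a * c ^ 2 * a * c ^ 3 * a) ∈ S a c := by
  refine Or.inr ⟨⟨k % 5, Nat.mod_lt _ (by norm_num)⟩, ?_⟩
  show c ^ (k % 5) * _ = _
  rw [← pow_mod hc]

variable {a c : K} (ha : a * a = 1) (hc : c ^ 5 = 1) (hac : (a * c) ^ 3 = 1)

include ha hc hac

/-- `a c a = c⁴ a c⁴` -/
theorem r1 : a * c * a = c ^ 4 * a * c ^ 4 := by
  have h : a * c * a * c * a * c = 1 := by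
    rw [← hac]; simp only [pow_succ, pow_zero, one_mul, mul_assoc]
  have h5 : c * c ^ 4 = 1 := by rw [← pow_succ', hc]
  have h5' : c ^ 4 * c = 1 := by rw [← pow_succ, hc]
  have h2 : a * c * a * (c * a * c) = 1 := by simpa only [mul_assoc] using h
  have h3 : (c * a * c) * (c ^ 4 * a * c ^ 4) = 1 := by
    calc (c * a * c) * (c ^ 4 * a * c ^ 4) = c * a * (c * c ^ 4) * a * c ^ 4 := by
          simp only [mul_assoc]
      _ = c * (a * a) * c ^ 4 := by rw [h5]; simp only [mul_assoc, mul_one]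
      _ = 1 := by rw [ha, mul_one, h5]
  calc a * c * a = a * c * a * ((c * a * c) * (c ^ 4 * a * c ^ 4)) := by rw [h3, mul_one]
    _ = (a * c * a * (c * a * c)) * (c ^ 4 * a * c ^ 4) := by simp only [mul_assoc]
    _ = _ := by rw [h2, one_mul]

/-- `a c⁴ a = c a c` -/
theorem r4 : a * c ^ 4 * a = c * a * c := by
  have h := r1 ha hc hac
  have h5 : c * c ^ 4 = 1 := by rw [← pow_succ', hc]
  have h5' : c ^ 4 * c = 1 := by rw [← pow_succ, hc]
  have e : (a * c * a) * (a * c ^ 4 * a) = 1 := by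
    calc (a * c * a) * (a * c ^ 4 * a) = a * c * (a * a) * c ^ 4 * a := by simp only [mul_assoc]
      _ = a * (c * c ^ 4) * a := by rw [ha]; simp only [mul_assoc, mul_one]
      _ = 1 := by rw [h5, mul_one, ha]
  have e2 : (c * a * c) * (a * c * a) = 1 := by
    rw [h]
    calc (c * a * c) * (c ^ 4 * a * c ^ 4) = c * a * (c * c ^ 4) * a * c ^ 4 := by
          simp only [mul_assoc]
      _ = c * (a * a) * c ^ 4 := by rw [h5]; simp only [mul_assoc, mul_one]
      _ = 1 := by rw [ha, mul_one, h5]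
  calc a * c ^ 4 * a = (c * a * c) * (a * c * a) * (a * c ^ 4 * a) := by rw [e2, one_mul]
    _ = (c * a * c) * ((a * c * a) * (a * c ^ 4 * a)) := by simp only [mul_assoc]
    _ = _ := by rw [e, mul_one]

/-- `a c³ a = c a c² a c` -/
theorem r3 : a * c ^ 3 * a = c * (a * c ^ 2 * a) * c := by
  have h := r4 ha hc hac
  have h8 : c ^ 3 = c ^ 4 * c ^ 4 := by rw [← pow_add, pow_mod hc (4 + 4)]
  calc a * c ^ 3 * a = a * c ^ 4 * (a * a) * c ^ 4 * a := by rw [ha, h8]; simp only [mul_assoc, mul_one]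
    _ = (a * c ^ 4 * a) * (a * c ^ 4 * a) := by simp only [mul_assoc]
    _ = (c * a * c) * (c * a * c) := by rw [h]
    _ = c * (a * c ^ 2 * a) * c := by rw [pow_two]; simp only [mul_assoc]

/-- `a c² a c a = c⁴ a c³` -/
theorem s1 : (a * c ^ 2 * a) * c * a = c ^ 4 * a * c ^ 3 := by
  have h := r1 ha hc hac
  have h6 : c ^ 2 * c ^ 4 = c := by rw [← pow_add, pow_mod hc (2 + 4)]; simp
  have h8 : c ^ 4 * c ^ 4 = c ^ 3 := by rw [← pow_add, pow_mod hc (4 + 4)]
  calc (a * c ^ 2 * a) * c * a = a * c ^ 2 * (a * c * a) := by simp only [mul_assoc]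
    _ = a * (c ^ 2 * c ^ 4) * a * c ^ 4 := by rw [h]; simp only [mul_assoc]
    _ = (a * c * a) * c ^ 4 := by rw [h6]
    _ = c ^ 4 * a * (c ^ 4 * c ^ 4) := by rw [h]; simp only [mul_assoc]
    _ = _ := by rw [h8]

/-- `a c² a c⁴ a = c a c² a c²` -/
theorem s4 : (a * c ^ 2 * a) * c ^ 4 * a = c * (a * c ^ 2 * a) * c ^ 2 := by
  have h := r4 ha hc hac
  have h3 := r3 ha hc hac
  calc (a * c ^ 2 * a) * c ^ 4 * a = a * c ^ 2 * (a * c ^ 4 * a) := by simp only [mul_assoc]
    _ = (a * c ^ 3 * a) * c := by rw [h, pow_succ c 2]; simp only [mul_assoc]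
    _ = _ := by rw [h3, pow_two]; simp only [mul_assoc]

/-- `a c² a c² a = c⁴ a c² a c⁴` -/
theorem s2 : (a * c ^ 2 * a) * c ^ 2 * a = c ^ 4 * (a * c ^ 2 * a) * c ^ 4 := by
  have h := s4 ha hc hac
  have h5 : c * c ^ 4 = 1 := by rw [← pow_succ', hc]
  have h5' : c ^ 4 * c = 1 := by rw [← pow_succ, hc]
  calc (a * c ^ 2 * a) * c ^ 2 * a = c ^ 4 * (c * (a * c ^ 2 * a) * c ^ 2) * a := by
        rw [← mul_assoc (c ^ 4), ← mul_assoc (c ^ 4), h5', one_mul]
    _ = c ^ 4 * ((a * c ^ 2 * a) * c ^ 4 * a) * a := by rw [h]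
    _ = c ^ 4 * (a * c ^ 2 * a) * c ^ 4 * (a * a) := by simp only [mul_assoc]
    _ = _ := by rw [ha, mul_one]

/-- `X c = c⁴ X` -/
theorem tX : (a * c ^ 2 * a * c ^ 3 * a) * c = c ^ 4 * (a * c ^ 2 * a * c ^ 3 * a) := by
  have h3 := r3 ha hc hac
  have h5' : c ^ 4 * c = 1 := by rw [← pow_succ, hc]
  have h : (a * c ^ 2 * a * c ^ 3 * a) * c = c * (a * c ^ 2 * a * c ^ 3 * a) * c ^ 2 := by
    calc (a * c ^ 2 * a * c ^ 3 * a) * c = a * c ^ 2 * (a * c ^ 3 * a) * c := by
          simp only [mul_assoc]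
      _ = a * (c ^ 2 * c) * (a * c ^ 2 * a) * (c * c) := by rw [h3]; simp only [mul_assoc]
      _ = (a * c ^ 3 * a) * c ^ 2 * a * c ^ 2 := by
          rw [← pow_succ, ← pow_two]; simp only [mul_assoc]
      _ = c * (a * c ^ 2 * a) * (c * c ^ 2) * a * c ^ 2 := by rw [h3]; simp only [mul_assoc]
      _ = _ := by rw [← pow_succ']; simp only [mul_assoc]
  -- `X = c X c`
  have h2 : (a * c ^ 2 * a * c ^ 3 * a) = c * (a * c ^ 2 * a * c ^ 3 * a) * c := by
    apply mul_right_cancel (b := c)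
    rw [h]
    simp only [pow_two, mul_assoc]
  calc (a * c ^ 2 * a * c ^ 3 * a) * c
      = c ^ 4 * (c * (a * c ^ 2 * a * c ^ 3 * a) * c) := by
        rw [← mul_assoc (c ^ 4), ← mul_assoc (c ^ 4), h5', one_mul]
    _ = _ := by rw [← h2]

theorem S_mul_c {s : K} (hs : s ∈ S a c) : s * c ∈ S a c := by
  rcases hs with ((⟨k, rfl⟩ | ⟨k, rfl⟩) | ⟨k, rfl⟩) | ⟨k, rfl⟩
  · show c ^ (k : ℕ) * c ∈ S a c
    rw [← pow_succ]; exact mem1 hc _
  · show c ^ (k.1 : ℕ) * a * c ^ (k.2 : ℕ) * c ∈ S a c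
    rw [mul_assoc, ← pow_succ]; exact mem2 hc _ _
  · show c ^ (k.1 : ℕ) * (a * c ^ 2 * a) * c ^ (k.2 : ℕ) * c ∈ S a c
    rw [mul_assoc, ← pow_succ]; exact mem3 hc _ _
  · show c ^ (k : ℕ) * (a * c ^ 2 * a * c ^ 3 * a) * c ∈ S a c
    rw [mul_assoc, tX ha hc hac, ← mul_assoc, ← pow_add]; exact mem4 hc _

theorem S_mul_a {s : K} (hs : s ∈ S a c) : s * a ∈ S a c := by
  rcases hs with ((⟨k, rfl⟩ | ⟨k, rfl⟩) | ⟨k, rfl⟩) | ⟨k, rfl⟩
  · show c ^ (k : ℕ) * a ∈ S a c
    have := mem2 (a := a) hc k 0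
    rwa [pow_zero, mul_one] at this
  · obtain ⟨k, i⟩ := k
    show c ^ (k : ℕ) * a * c ^ (i : ℕ) * a ∈ S a c
    have e : c ^ (k : ℕ) * a * c ^ (i : ℕ) * a = c ^ (k : ℕ) * (a * c ^ (i : ℕ) * a) := by
      simp only [mul_assoc]
    rw [e]
    fin_cases i
    · show c ^ (k : ℕ) * (a * c ^ 0 * a) ∈ S a c
      rw [pow_zero, mul_one, ha, mul_one]; exact mem1 hc _
    · show c ^ (k : ℕ) * (a * c ^ 1 * a) ∈ S a c
      rw [pow_one, r1 ha hc hac, ← mul_assoc, ← mul_assoc, ← pow_add]; exact mem2 hc _ _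
    · show c ^ (k : ℕ) * (a * c ^ 2 * a) ∈ S a c
      have := mem3 (a := a) hc k 0
      rwa [pow_zero, mul_one] at this
    · show c ^ (k : ℕ) * (a * c ^ 3 * a) ∈ S a c
      rw [r3 ha hc hac, ← mul_assoc, ← mul_assoc, ← pow_succ]
      have := mem3 (a := a) hc (k + 1) 1
      rwa [pow_one] at this
    · show c ^ (k : ℕ) * (a * c ^ 4 * a) ∈ S a c
      rw [r4 ha hc hac, ← mul_assoc, ← mul_assoc, ← pow_succ]
      have := mem2 (a := a) hc (k + 1) 1
      rwa [pow_one] at this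
  · obtain ⟨k, i⟩ := k
    show c ^ (k : ℕ) * (a * c ^ 2 * a) * c ^ (i : ℕ) * a ∈ S a c
    have e : c ^ (k : ℕ) * (a * c ^ 2 * a) * c ^ (i : ℕ) * a =
        c ^ (k : ℕ) * ((a * c ^ 2 * a) * c ^ (i : ℕ) * a) := by
      simp only [mul_assoc]
    rw [e]
    fin_cases i
    · show c ^ (k : ℕ) * ((a * c ^ 2 * a) * c ^ 0 * a) ∈ S a c
      have e2 : (a * c ^ 2 * a) * c ^ 0 * a = a * c ^ 2 := by
        rw [pow_zero, mul_one, mul_assoc, mul_assoc, ha, mul_one]
      rw [e2, ← mul_assoc]; exact mem2 hc _ _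
    · show c ^ (k : ℕ) * ((a * c ^ 2 * a) * c ^ 1 * a) ∈ S a c
      rw [pow_one, s1 ha hc hac, ← mul_assoc, ← mul_assoc, ← pow_add]; exact mem2 hc _ _
    · show c ^ (k : ℕ) * ((a * c ^ 2 * a) * c ^ 2 * a) ∈ S a c
      rw [s2 ha hc hac, ← mul_assoc, ← mul_assoc, ← pow_add]; exact mem3 hc _ _
    · exact mem4 hc _
    · show c ^ (k : ℕ) * ((a * c ^ 2 * a) * c ^ 4 * a) ∈ S a c
      rw [s4 ha hc hac, ← mul_assoc, ← mul_assoc, ← pow_succ]; exact mem3 hc _ _
  · show c ^ (k : ℕ) * (a * c ^ 2 * a * c ^ 3 * a) * a ∈ S a c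
    have e : c ^ (k : ℕ) * (a * c ^ 2 * a * c ^ 3 * a) * a =
        c ^ (k : ℕ) * (a * c ^ 2 * a) * c ^ 3 * (a * a) := by
      simp only [mul_assoc]
    rw [e, ha, mul_one]; exact mem3 hc _ _

theorem closure_sub : (Subgroup.closure {a, c} : Set K) ⊆ S a c := by
  intro g hg
  have ha' : a⁻¹ = a := inv_eq_of_mul_eq_one_left ha
  have hc' : c⁻¹ = c ^ 4 := inv_eq_of_mul_eq_one_left (by rw [← pow_succ, hc])
  have hp : ∀ (k : ℕ) (s : K), s ∈ S a c → s * c ^ k ∈ S a c := by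
    intro k
    induction k with
    | zero => intro s hs; rwa [pow_zero, mul_one]
    | succ k ih => intro s hs; rw [pow_succ, ← mul_assoc]; exact S_mul_c ha hc hac (ih s hs)
  induction hg using Subgroup.closure_induction_right with
  | one => exact mem1 (a := a) hc 0 |> fun h => by rwa [pow_zero] at h
  | mul_right s hs t ht ih =>
    rcases ht with rfl | ht
    · exact S_mul_a ha hc hac ih
    · rw [Set.mem_singleton_iff.1 ht]; exact S_mul_c ha hc hac ih
  | mul_inv_cancel s hs t ht ih =>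
    rcases ht with rfl | ht
    · rw [ha']; exact S_mul_a ha hc hac ih
    · rw [Set.mem_singleton_iff.1 ht, hc']; exact hp 4 _ ih

theorem card_le (h : Subgroup.closure {a, c} = ⊤) : Nat.card K ≤ 60 := by
  have h1 : (Set.univ : Set K) ⊆ S a c := by
    have := closure_sub ha hc hac
    rwa [h, Subgroup.coe_top] at this
  rw [← Set.ncard_univ]
  exact (Set.ncard_le_ncard h1 (S_finite a c)).trans (S_ncard a c)

theorem card_one (h : Subgroup.closure {a, c} = ⊤) (h5 : Nat.Coprime 5 (Nat.card K)) :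
    Nat.card K = 1 := by
  have hc1 : c = 1 := by
    have h1 : orderOf c ∣ 5 := orderOf_dvd_of_pow_eq_one hc
    have h2 : orderOf c ∣ Nat.card K := orderOf_dvd_natCard c
    exact orderOf_eq_one_iff.1 (Nat.eq_one_of_dvd_coprimes h5 h1 h2)
  have ha1 : a = 1 := by
    rw [hc1, mul_one] at hac
    rw [pow_succ, pow_two, ha, one_mul] at hac
    exact hac
  rw [ha1, hc1] at h
  simp only [Set.pair_eq_singleton, Subgroup.closure_singleton_one] at h
  have h2 := Subgroup.card_top (G := K)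
  rw [← h, Subgroup.card_bot] at h2
  exact h2.symm

end core

/-- The six orders of the exponents `2, 3, 5`. -/
def Triples : Set (ℕ × ℕ × ℕ) :=
  {(2, 3, 5), (2, 5, 3), (3, 2, 5), (3, 5, 2), (5, 2, 3), (5, 3, 2)}

/-- reduction to the standard generators -/
theorem reduce {K : Type*} [Group K] {p q r : ℕ} (ht : (p, q, r) ∈ Triples) (ξ η : K)
    (h1 : ξ ^ p = 1) (h2 : η ^ q = 1) (h3 : (ξ * η) ^ r = 1) :
    ∃ a c : K, a * a = 1 ∧ c ^ 5 = 1 ∧ (a * c) ^ 3 = 1 ∧
      ξ ∈ Subgroup.closure {a, c} ∧ η ∈ Subgroup.closure {a, c} := by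
  have hflip : ∀ g h : K, (g * h) ^ 3 = 1 → (h * g) ^ 3 = 1 := by
    intro g h hh
    have e : (h * g) ^ 3 = h * (g * h) ^ 3 * h⁻¹ := by
      simp only [pow_succ, pow_zero, one_mul, mul_assoc, mul_inv_cancel, mul_one]
    rw [e, hh, mul_one, mul_inv_cancel]
  have ma : ∀ a c : K, a ∈ Subgroup.closure {a, c} := fun a c =>
    Subgroup.subset_closure (by simp)
  have mc : ∀ a c : K, c ∈ Subgroup.closure {a, c} := fun a c =>
    Subgroup.subset_closure (by simp)
  unfold Triples at ht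
  simp only [Set.mem_insert_iff, Set.mem_singleton_iff, Prod.mk.injEq] at ht
  rcases ht with ⟨rfl, rfl, rfl⟩ | ⟨rfl, rfl, rfl⟩ | ⟨rfl, rfl, rfl⟩ | ⟨rfl, rfl, rfl⟩ |
    ⟨rfl, rfl, rfl⟩ | ⟨rfl, rfl, rfl⟩
  · -- (2,3,5): a = ξ, c = ξη
    rw [pow_two] at h1
    have e : ξ * (ξ * η) = η := by rw [← mul_assoc, h1, one_mul]
    refine ⟨ξ, ξ * η, h1, h3, by rw [e, h2], ma _ _, ?_⟩
    have := mul_mem (ma ξ (ξ * η)) (mc ξ (ξ * η))
    rwa [e] at this
  · -- (2,5,3)
    rw [pow_two] at h1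
    exact ⟨ξ, η, h1, h2, h3, ma _ _, mc _ _⟩
  · -- (3,2,5): a = η, c = ξη
    rw [pow_two] at h2
    have e : (ξ * η) * η = ξ := by rw [mul_assoc, h2, mul_one]
    refine ⟨η, ξ * η, h2, h3, hflip _ _ (by rw [e, h1]), ?_, ma _ _⟩
    have := mul_mem (mc η (ξ * η)) (ma η (ξ * η))
    rwa [e] at this
  · -- (3,5,2): a = ξη, c = η⁻¹
    rw [pow_two] at h3
    have e : (ξ * η) * η⁻¹ = ξ := by rw [mul_assoc, mul_inv_cancel, mul_one]
    refine ⟨ξ * η, η⁻¹, h3, by rw [inv_pow, h2, inv_one], by rw [e, h1], ?_, ?_⟩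
    · have := mul_mem (ma (ξ * η) η⁻¹) (mc (ξ * η) η⁻¹)
      rwa [e] at this
    · have := inv_mem (mc (ξ * η) η⁻¹)
      rwa [inv_inv] at this
  · -- (5,2,3): a = η, c = ξ
    rw [pow_two] at h2
    exact ⟨η, ξ, h2, h1, hflip _ _ h3, mc _ _, ma _ _⟩
  · -- (5,3,2): a = ξη, c = ξ⁻¹
    rw [pow_two] at h3
    have e : ξ⁻¹ * (ξ * η) = η := by rw [← mul_assoc, inv_mul_cancel, one_mul]
    refine ⟨ξ * η, ξ⁻¹, h3, by rw [inv_pow, h1, inv_one], hflip _ _ (by rw [e, h2]), ?_, ?_⟩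
    · have := inv_mem (mc (ξ * η) ξ⁻¹)
      rwa [inv_inv] at this
    · have := mul_mem (mc (ξ * η) ξ⁻¹) (ma (ξ * η) ξ⁻¹)
      rwa [e] at this

/-- the commutator word `z⁻¹ w⁻¹ z w` -/
def word (w : F) : F := z⁻¹ * w⁻¹ * z * w

theorem word_mem (w : F) : word w ∈ commutator F := by
  have : word w = ⁅z⁻¹, w⁻¹⁆ := by
    unfold word
    rw [commutatorElement_def, inv_inv, inv_inv]
  rw [this]
  exact Subgroup.commutator_mem_commutator (Subgroup.mem_top _) (Subgroup.mem_top _)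

theorem lift_word {K : Type*} [Group K] (ξ η ζ : K) (w : F) :
    ξ * η * ζ * FreeGroup.lift ![ξ, η, ζ] (word w) =
      ξ * η * ((FreeGroup.lift ![ξ, η, ζ] w)⁻¹ * ζ * FreeGroup.lift ![ξ, η, ζ] w) := by
  unfold word z
  simp only [map_mul, map_inv, FreeGroup.lift_apply_of, Matrix.cons_val]
  group

theorem only_five {p q r : ℕ} (ht : (p, q, r) ∈ Triples) {w : F}
    (hw : w ∈ Subgroup.closure {x, y}) {n : ℕ} (h : Admissible p q r (word w) n) : n = 5 := by
  obtain ⟨hn, ξ, η, ζ, hgen, h1, h2, h3, h4⟩ := h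
  rw [lift_word] at h4
  set w' := FreeGroup.lift ![ξ, η, ζ] w with hw'
  have hw'm : w' ∈ Subgroup.closure {ξ, η} := by
    have h5 : Subgroup.map (FreeGroup.lift ![ξ, η, ζ]) (Subgroup.closure {x, y}) ≤
        Subgroup.closure {ξ, η} := by
      rw [MonoidHom.map_closure, Subgroup.closure_le]
      rintro _ ⟨g, hg, rfl⟩
      rcases hg with rfl | hg
      · exact Subgroup.subset_closure (by simp [x])
      · rw [Set.mem_singleton_iff.1 hg]
        exact Subgroup.subset_closure (by simp [y])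
    exact h5 (Subgroup.mem_map_of_mem _ hw)
  have hζ : ζ = w' * (ξ * η)⁻¹ * w'⁻¹ := by
    have h5 : w'⁻¹ * ζ * w' = (ξ * η)⁻¹ := by
      rw [eq_comm, inv_eq_iff_mul_eq_one]; exact h4
    rw [← h5]; group
  have h6 : (ξ * η) ^ r = 1 := by
    have h7 : ζ⁻¹ ^ r = 1 := by rw [inv_pow, h3, inv_one]
    have h8 : ζ⁻¹ = w' * (ξ * η) * w'⁻¹ := by rw [hζ]; group
    rw [h8, conj_pow] at h7
    have h9 := congrArg (fun g => w'⁻¹ * g * w') h7
    simpa [mul_assoc] using h9
  have hξη : Subgroup.closure {ξ, η} = ⊤ := by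
    rw [eq_top_iff, ← hgen, Subgroup.closure_le]
    intro g hg
    rcases hg with rfl | rfl | hg
    · exact Subgroup.subset_closure (by simp)
    · exact Subgroup.subset_closure (by simp)
    · rw [Set.mem_singleton_iff.1 hg, hζ]
      exact mul_mem (mul_mem hw'm (inv_mem (mul_mem (Subgroup.subset_closure (by simp))
        (Subgroup.subset_closure (by simp))))) (inv_mem hw'm)
  obtain ⟨a, c, ha, hc, hac, m1, m2⟩ := reduce ht ξ η h1 h2 h6
  have htop : Subgroup.closure {a, c} = ⊤ := by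
    rw [eq_top_iff, ← hξη, Subgroup.closure_le]
    intro g hg
    rcases hg with rfl | hg
    · exact m1
    · rw [Set.mem_singleton_iff.1 hg]; exact m2
  have hle := card_le ha hc hac htop
  have hnt : Nontrivial (Fin n) := Fin.nontrivial_iff_two_le.2 (by omega)
  have hcard : 2 * Nat.card (alternatingGroup (Fin n)) = n.factorial := by
    rw [two_mul_nat_card_alternatingGroup, Nat.card_perm, Nat.card_eq_fintype_card,
      Fintype.card_fin]
  rcases Nat.lt_or_ge n 6 with h6 | h6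
  · have h5 : n = 3 ∨ n = 4 ∨ n = 5 := by omega
    rcases h5 with rfl | rfl | rfl
    · exfalso
      have hc3 : Nat.card (alternatingGroup (Fin 3)) = 3 := by
        have : Nat.factorial 3 = 6 := rfl
        omega
      have := card_one ha hc hac htop (by rw [hc3]; norm_num)
      omega
    · exfalso
      have hc3 : Nat.card (alternatingGroup (Fin 4)) = 12 := by
        have : Nat.factorial 4 = 24 := rfl
        omega
      have := card_one ha hc hac htop (by rw [hc3]; norm_num)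
      omega
    · rfl
  · exfalso
    have h7 : Nat.factorial 6 ≤ Nat.factorial n := Nat.factorial_le h6
    have h8 : Nat.factorial 6 = 720 := rfl
    omega

/-- existence in degree five -/
theorem five_of {p q r : ℕ} {w : F} (hw : w ∈ Subgroup.closure {x, y})
    (ξ η : alternatingGroup (Fin 5)) (hgen : Subgroup.closure {ξ, η} = ⊤) (h1 : ξ ^ p = 1)
    (h2 : η ^ q = 1) (h3 : (ξ * η) ^ r = 1) : Admissible p q r (word w) 5 := by
  set w' := FreeGroup.lift ![ξ, η, 1] w with hw'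
  refine ⟨by norm_num, ξ, η, w' * (ξ * η)⁻¹ * w'⁻¹, ?_, h1, h2, ?_, ?_⟩
  · rw [eq_top_iff, ← hgen]
    exact Subgroup.closure_mono (by
      intro g hg
      rcases hg with rfl | hg
      · simp
      · rw [Set.mem_singleton_iff.1 hg]; simp)
  · rw [conj_pow, inv_pow, h3, inv_one, mul_one, mul_inv_cancel]
  · rw [lift_word]
    have h5 : FreeGroup.lift ![ξ, η, w' * (ξ * η)⁻¹ * w'⁻¹] w = w' := by
      refine MonoidHom.eqOn_closure (s := {x, y}) ?_ hw
      intro g hg
      rcases hg with rfl | hg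
      · simp [x]
      · rw [Set.mem_singleton_iff.1 hg]; simp [y]
    rw [h5]
    group

/-- an element of order two of `A₅` -/
def a0 : alternatingGroup (Fin 5) := ⟨Equiv.swap 0 1 * Equiv.swap 2 3, by
    rw [Equiv.Perm.mem_alternatingGroup]; decide⟩

/-- an element of order five of `A₅` -/
def c0 : alternatingGroup (Fin 5) := ⟨finRotate 5, by
    rw [Equiv.Perm.mem_alternatingGroup]; decide⟩

theorem a0_sq : a0 * a0 = 1 := by decide +kernel
theorem c0_pow : c0 ^ 5 = 1 := by decide +kernel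
theorem a0c0_pow : (a0 * c0) ^ 3 = 1 := by decide +kernel
theorem c0a0_pow : (c0 * a0) ^ 3 = 1 := by decide +kernel

theorem generate : Subgroup.closure {a0, c0} = ⊤ := by
  set H := Subgroup.closure {a0, c0} with hH
  have ma : a0 ∈ H := Subgroup.subset_closure (by simp)
  have mc : c0 ∈ H := Subgroup.subset_closure (by simp)
  have hcard : Nat.card (alternatingGroup (Fin 5)) = 60 := by
    have h1 : 2 * Nat.card (alternatingGroup (Fin 5)) = Nat.factorial 5 := by
      rw [two_mul_nat_card_alternatingGroup, Nat.card_perm, Nat.card_eq_fintype_card,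
        Fintype.card_fin]
    have h2 : Nat.factorial 5 = 120 := rfl
    omega
  have hord : ∀ (g : alternatingGroup (Fin 5)) (k : ℕ), k.Prime → g ∈ H → g ^ k = 1 → g ≠ 1 →
      k ∣ Nat.card H := by
    intro g k hk hg h1 h2
    have h3 : orderOf g = k := by
      have := Fact.mk hk
      exact orderOf_eq_prime h1 h2
    have h4 : orderOf (⟨g, hg⟩ : H) = k := by rw [← h3, Subgroup.orderOf_mk]
    rw [← h4]
    exact orderOf_dvd_natCard _
  have h2 : 2 ∣ Nat.card H := hord a0 2 (by norm_num) ma (by rw [pow_two, a0_sq]) (by decide +kernel)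
  have h3 : 3 ∣ Nat.card H :=
    hord (a0 * c0) 3 (by norm_num) (mul_mem ma mc) a0c0_pow (by decide +kernel)
  have h5 : 5 ∣ Nat.card H := hord c0 5 (by norm_num) mc c0_pow (by decide +kernel)
  have hdvd : Nat.card H ∣ 60 := by rw [← hcard]; exact Subgroup.card_subgroup_dvd_card H
  have hle := Nat.le_of_dvd (by norm_num) hdvd
  have h30 : 30 ∣ Nat.card H := by omega
  rcases (by omega : Nat.card H = 30 ∨ Nat.card H = 60 ∨ Nat.card H = 0) with h | h | h
  · exfalso
    have hidx : H.index = 2 := by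
      have := Subgroup.card_mul_index H
      rw [h, hcard] at this
      omega
    have hn : H.Normal := Subgroup.normal_of_index_eq_two hidx
    rcases hn.eq_bot_or_eq_top with hb | ht
    · rw [hb, Subgroup.card_bot] at h
      omega
    · rw [ht, Subgroup.card_top, hcard] at h
      omega
  · exact Subgroup.eq_top_of_card_eq H (by rw [h, hcard])
  · have := Nat.card_pos (α := H)
    omega

theorem exists_five {p q r : ℕ} (ht : (p, q, r) ∈ Triples) :
    ∃ ξ η : alternatingGroup (Fin 5), Subgroup.closure {ξ, η} = ⊤ ∧ ξ ^ p = 1 ∧ η ^ q = 1 ∧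
      (ξ * η) ^ r = 1 := by
  have key : ∀ ξ η : alternatingGroup (Fin 5), a0 ∈ Subgroup.closure {ξ, η} →
      c0 ∈ Subgroup.closure {ξ, η} → Subgroup.closure {ξ, η} = ⊤ := by
    intro ξ η h1 h2
    rw [eq_top_iff, ← generate, Subgroup.closure_le]
    intro g hg
    rcases hg with rfl | hg
    · exact h1
    · rw [Set.mem_singleton_iff.1 hg]; exact h2
  have m1 : ∀ ξ η : alternatingGroup (Fin 5), ξ ∈ Subgroup.closure {ξ, η} := fun ξ η =>
    Subgroup.subset_closure (by simp)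
  have m2 : ∀ ξ η : alternatingGroup (Fin 5), η ∈ Subgroup.closure {ξ, η} := fun ξ η =>
    Subgroup.subset_closure (by simp)
  unfold Triples at ht
  simp only [Set.mem_insert_iff, Set.mem_singleton_iff, Prod.mk.injEq] at ht
  rcases ht with ⟨rfl, rfl, rfl⟩ | ⟨rfl, rfl, rfl⟩ | ⟨rfl, rfl, rfl⟩ | ⟨rfl, rfl, rfl⟩ |
    ⟨rfl, rfl, rfl⟩ | ⟨rfl, rfl, rfl⟩
  · refine ⟨a0, a0 * c0, key _ _ (m1 _ _) ?_, by decide +kernel, by decide +kernel, by decide +kernel⟩
    have := mul_mem (m1 a0 (a0 * c0)) (m2 a0 (a0 * c0))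
    rwa [← mul_assoc, a0_sq, one_mul] at this
  · exact ⟨a0, c0, key _ _ (m1 _ _) (m2 _ _), by decide +kernel, by decide +kernel, by decide +kernel⟩
  · refine ⟨c0 * a0, a0, key _ _ (m2 _ _) ?_, by decide +kernel, by decide +kernel, by decide +kernel⟩
    have := mul_mem (m1 (c0 * a0) a0) (m2 (c0 * a0) a0)
    rwa [mul_assoc, a0_sq, mul_one] at this
  · refine ⟨a0 * c0, c0⁻¹, key _ _ ?_ ?_, by decide +kernel, by decide +kernel, by decide +kernel⟩
    · have := mul_mem (m1 (a0 * c0) c0⁻¹) (m2 (a0 * c0) c0⁻¹)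
      rwa [mul_assoc, mul_inv_cancel, mul_one] at this
    · have := inv_mem (m2 (a0 * c0) c0⁻¹)
      rwa [inv_inv] at this
  · exact ⟨c0, a0, key _ _ (m2 _ _) (m1 _ _), by decide +kernel, by decide +kernel, by decide +kernel⟩
  · refine ⟨c0⁻¹, c0 * a0, key _ _ ?_ ?_, by decide +kernel, by decide +kernel, by decide +kernel⟩
    · have := mul_mem (m1 c0⁻¹ (c0 * a0)) (m2 c0⁻¹ (c0 * a0))
      rwa [← mul_assoc, inv_mul_cancel, one_mul] at this
    · have := inv_mem (m1 c0⁻¹ (c0 * a0))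
      rwa [inv_inv] at this

/-- the admissible integers -/
theorem admissible_eq {p q r : ℕ} (ht : (p, q, r) ∈ Triples) {w : F}
    (hw : w ∈ Subgroup.closure {x, y}) : {n | Admissible p q r (word w) n} = {5} := by
  ext n
  constructor
  · exact fun h => only_five ht hw h
  · rintro rfl
    obtain ⟨ξ, η, h0, h1, h2, h3⟩ := exists_five ht
    exact five_of hw ξ η h0 h1 h2 h3

/-- the words `z⁻¹ y^(-k) z y^k` are pairwise different -/
theorem word_inj : Function.Injective (fun k : ℕ => word (y ^ k)) := by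
  let f : F →* DihedralGroup 0 := FreeGroup.lift ![1, DihedralGroup.r 1, DihedralGroup.sr 0]
  have hf : ∀ k : ℕ, f (word (y ^ k)) = DihedralGroup.r ((k + k : ℕ) : ZMod 0) := by
    intro k
    have h1 : f y = DihedralGroup.r 1 := by simp [f, y]
    have h2 : f z = DihedralGroup.sr 0 := by simp [f, z]
    have h3 : (DihedralGroup.r 1 : DihedralGroup 0) ^ k = DihedralGroup.r (k : ZMod 0) :=
      DihedralGroup.r_one_pow k
    unfold word
    rw [map_mul, map_mul, map_mul, map_inv, map_inv, map_pow, h1, h2, h3]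
    simp only [DihedralGroup.inv_sr, DihedralGroup.inv_r, DihedralGroup.sr_mul_r,
      DihedralGroup.sr_mul_sr, DihedralGroup.r_mul_r]
    congr 1
    push_cast
    ring
  intro k l hkl
  have h := congrArg f hkl
  simp only at h
  rw [hf, hf] at h
  have h2 := DihedralGroup.r.inj h
  have h3 : k + k = l + l := by exact_mod_cast h2
  omega

/-- **Q2 has a negative answer.**  (1) Let `{p, q, r} = {2, 3, 5}` and let `w` be any word in `x, y`.
Then `u = z⁻¹ w⁻¹ z w` is a commutator word for which `5` is the only admissible integer.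
(2) In particular there are infinitely many commutator words `u` such that `5` is the only
admissible integer for `p, q, r = 2, 3, 5` and `u`.
(3) It is not true that for all distinct primes `p, q, r` and all commutator words `u` (or all
commutator words `u ≠ 1`) infinitely many integers are admissible. -/
theorem result :
    (∀ p q r : ℕ, (p, q, r) ∈ Triples → ∀ w ∈ Subgroup.closure {x, y},
      word w ∈ commutator F ∧ {n | Admissible p q r (word w) n} = {5}) ∧
    {u : F | u ∈ commutator F ∧ {n | Admissible 2 3 5 u n} = {5}}.Infinite ∧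
    (¬ ∀ p q r : ℕ, p.Prime → q.Prime → r.Prime → p ≠ q → q ≠ r → p ≠ r →
      ∀ u ∈ commutator F, {n | Admissible p q r u n}.Infinite) ∧
    ¬ ∀ p q r : ℕ, p.Prime → q.Prime → r.Prime → p ≠ q → q ≠ r → p ≠ r →
      ∀ u ∈ commutator F, u ≠ 1 → {n | Admissible p q r u n}.Infinite := by
  have ht : (2, 3, 5) ∈ Triples := by simp [Triples]
  have hy : ∀ k : ℕ, y ^ k ∈ Subgroup.closure {x, y} := fun k =>
    pow_mem (Subgroup.subset_closure (by simp)) k
  have hne : word (y ^ 1) ≠ 1 := by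
    intro h
    have h0 : word (y ^ 0) = 1 := by simp [word]
    have := word_inj (h.trans h0.symm)
    omega
  have hlast : ¬ ∀ p q r : ℕ, p.Prime → q.Prime → r.Prime → p ≠ q → q ≠ r → p ≠ r →
      ∀ u ∈ commutator F, u ≠ 1 → {n | Admissible p q r u n}.Infinite := by
    intro h
    have := h 2 3 5 (by norm_num) (by norm_num) (by norm_num) (by norm_num) (by norm_num)
      (by norm_num) (word (y ^ 1)) (word_mem _) hne
    rw [admissible_eq ht (hy 1)] at this
    exact this (Set.finite_singleton 5)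
  refine ⟨fun p q r hpqr w hw => ⟨word_mem w, admissible_eq hpqr hw⟩, ?_, fun h => ?_, hlast⟩
  · refine (Set.infinite_range_of_injective word_inj).mono ?_
    rintro _ ⟨k, rfl⟩
    exact ⟨word_mem _, admissible_eq ht (hy k)⟩
  · exact hlast fun p q r h1 h2 h3 h4 h5 h6 u hu _ => h p q r h1 h2 h3 h4 h5 h6 u hu

end Pool.Agent.Results.MP_73c65d_al.SphericalTriples
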